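import Pool.Agent.H717R2.FeqG

/-!
# MP_12983e_an: all continuous solutions of `f (x + f x) = f x + f (f x)`

The continuous solutions are exactly the linear maps `x ↦ a x` (`a` real) and the piecewise linear
maps `x ↦ a x` for `0 ≤ x`, `x ↦ b x` for `x < 0`, with `a, b ≥ 0`.
-/

namespace Pool.Agent.Results.MP_12983e_an.Classification

theorem result (f : ℝ → ℝ) :
    (Continuous f ∧ ∀ x, f (x + f x) = f x + f (f x)) ↔
      ((∃ a : ℝ, ∀ x, f x = a * x) ∨
        (∃ a b : ℝ, 0 ≤ a ∧ 0 ≤ b ∧ ∀ x, f x = if 0 ≤ x then a * x else b * x)) := by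
  constructor
  · rintro ⟨hc, he⟩
    exact Pool.Agent.H717R2.Sol.classify ⟨hc, he⟩
  · rintro (⟨a, ha⟩ | ⟨a, b, ha, hb, hf⟩)
    · obtain rfl : f = fun x => a * x := funext ha
      refine ⟨by fun_prop, fun x => ?_⟩
      ring
    · obtain rfl : f = fun x => if 0 ≤ x then a * x else b * x := funext hf
      constructor
      · apply Continuous.if_le (by fun_prop) (by fun_prop) continuous_const continuous_id
        intro x hx
        have hx0 : x = 0 := hx.symm
        rw [hx0]; simp
      · intro x
        simp only
        by_cases hx : 0 ≤ x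
        · have h1 : 0 ≤ a * x := mul_nonneg ha hx
          have h2 : 0 ≤ x + a * x := by linarith
          rw [if_pos hx, if_pos h1, if_pos h2]; ring
        · push Not at hx
          have hbx : b * x ≤ 0 := mul_nonpos_of_nonneg_of_nonpos hb hx.le
          have h2 : ¬ (0 ≤ x + b * x) := by push Not; linarith
          rw [if_neg (not_le.mpr hx), if_neg h2]
          by_cases h3 : 0 ≤ b * x
          · have h4 : b * x = 0 := le_antisymm hbx h3
            rw [if_pos h3, h4, mul_add, h4]; ring
          · rw [if_neg h3]; ring

end Pool.Agent.Results.MP_12983e_an.Classification
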